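import Mathlib
import Pool.Agent.helper64.OT.SpecG

/-!
# HVY (MP_f6e9a2_nt): heavy and light points with respect to a system
-/

set_option autoImplicit false

namespace Pool.Agent.OG

open Finset Pool.Agent.OT Pool.Agent.SPI Pool.Agent.helper85.PG
open scoped Pointwise

/-- the points of `B` in the translate `b + P 1` -/
def HVY_near {p : ℕ} (P : ℝ → Finset (ZMod p)) (B : Finset (ZMod p)) (b : ZMod p) : Finset (ZMod p) :=
  B.filter fun x => x - b ∈ P 1

/-- a maximal separated family -/
private theorem HVY_max {p : ℕ} [Fact p.Prime] {d : ℕ} {P : ℝ → Finset (ZMod p)} (hP : IsSys p d P)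
    (A : Finset (ZMod p)) : ∃ J : Finset (ZMod p), J ⊆ A ∧ (∀ b ∈ A, ∃ y ∈ J, b - y ∈ P 2) ∧
      ∀ y ∈ J, ∀ y' ∈ J, y ≠ y' → y - y' ∉ P 2 := by
  classical
  obtain ⟨J, hJ, hmax⟩ := Finset.exists_max_image
    (A.powerset.filter fun J => ∀ y ∈ J, ∀ y' ∈ J, y ≠ y' → y - y' ∉ P 2) Finset.card
    ⟨∅, by simp⟩
  rw [Finset.mem_filter, Finset.mem_powerset] at hJ
  refine ⟨J, hJ.1, ?_, hJ.2⟩
  intro b hb
  by_contra hcon
  push Not at hcon
  have h0 : (0 : ZMod p) ∈ P 2 := hP.zero_mem (by norm_num)
  have hbJ : b ∉ J := fun h => hcon b h (by rw [sub_self]; exact h0)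
  have hmem : insert b J ∈ A.powerset.filter fun J => ∀ y ∈ J, ∀ y' ∈ J, y ≠ y' → y - y' ∉ P 2 := by
    rw [Finset.mem_filter, Finset.mem_powerset]
    refine ⟨Finset.insert_subset hb hJ.1, ?_⟩
    intro y hy y' hy' hne
    rw [Finset.mem_insert] at hy hy'
    rcases hy with rfl | hy
    · rcases hy' with rfl | hy'
      · exact absurd rfl hne
      · exact hcon y' hy'
    · rcases hy' with rfl | hy'
      · intro h
        apply hcon y hy
        have := hP.neg_mem h
        rwa [neg_sub] at this
      · exact hJ.2 y hy y' hy' hne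
  have h := hmax _ hmem
  rw [Finset.card_insert_of_notMem hbJ] at h
  omega

/-- HVY -/
theorem HVY : HVY_stmt := by
  intro p _ d P B m hP
  classical
  obtain ⟨J, hJA, hcov, hsep⟩ := HVY_max hP (B.filter fun b => m < (HVY_near P B b).card)
  refine ⟨B.filter fun b => (HVY_near P B b).card ≤ m, J, Finset.filter_subset _ _, ?_, ?_, ?_⟩
  · intro b hb hbL
    refine hcov b ?_
    rw [Finset.mem_filter]
    refine ⟨hb, ?_⟩
    by_contra h
    exact hbL (Finset.mem_filter.mpr ⟨hb, not_lt.mp h⟩)
  · have hdis : ∀ y ∈ J, ∀ y' ∈ J, y ≠ y' → Disjoint (HVY_near P B y) (HVY_near P B y') := by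
      intro y hy y' hy' hne
      rw [Finset.disjoint_left]
      intro z hz hz'
      have h1 : z - y ∈ P 1 := (Finset.mem_filter.mp hz).2
      have h2 : z - y' ∈ P 1 := (Finset.mem_filter.mp hz').2
      have h3 := hP.sub_mem h2 h1
      have e1 : (1 : ℝ) + 1 = 2 := by norm_num
      have e2 : z - y' - (z - y) = y - y' := by ring
      rw [e1, e2] at h3
      exact hsep y hy y' hy' hne h3
    have hsub : J.biUnion (HVY_near P B) ⊆ B := by
      intro z hz
      rw [Finset.mem_biUnion] at hz
      obtain ⟨y, _, hz⟩ := hz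
      exact (Finset.mem_filter.mp hz).1
    calc m * J.card = ∑ _y ∈ J, m := by rw [Finset.sum_const, smul_eq_mul, mul_comm]
      _ ≤ ∑ y ∈ J, (HVY_near P B y).card := Finset.sum_le_sum fun y hy =>
          (Finset.mem_filter.mp (hJA hy)).2.le
      _ = (J.biUnion (HVY_near P B)).card := (Finset.card_biUnion hdis).symm
      _ ≤ B.card := Finset.card_le_card hsub
  · set L := B.filter fun b => (HVY_near P B b).card ≤ m with hL
    have hLB : L ⊆ B := Finset.filter_subset _ _
    have hmain : ES (P (1 / 2)) L ≤ m * (L ×ˢ L).card := by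
      unfold ES
      refine Finset.card_le_mul_card_image_of_maps_to (f := fun z => z.1) (t := L ×ˢ L) ?_ m ?_
      · intro z hz
        exact (Finset.mem_product.mp (Finset.mem_filter.mp hz).1).1
      · intro b hb
        have hb1 : b.1 ∈ L := (Finset.mem_product.mp hb).1
        have hcard : (HVY_near P B b.1).card ≤ m := (Finset.mem_filter.mp hb1).2
        refine le_trans ?_ hcard
        refine Finset.card_le_card_of_injOn (fun z => z.2.1) ?_ ?_
        · intro z hz
          have hz' := Finset.mem_filter.mp (Finset.mem_coe.mp hz)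
          have hz1 := Finset.mem_filter.mp hz'.1
          have hz2 := (Finset.mem_product.mp (Finset.mem_product.mp hz1.1).2).1
          have hzb : z.1 = b := hz'.2
          have h3 : z.1.1 - z.2.1 ∈ P (1 / 2) - P (1 / 2) := hz1.2.2
          rw [Finset.mem_sub] at h3
          obtain ⟨u, hu, v, hv, huv⟩ := h3
          have h4 := hP.sub_mem hv hu
          have e1 : (1 / 2 : ℝ) + 1 / 2 = 1 := by norm_num
          have e2 : v - u = z.2.1 - b.1 := by
            rw [← hzb, ← neg_sub u v, huv, neg_sub]
          rw [e1, e2] at h4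
          exact Finset.mem_coe.mpr (Finset.mem_filter.mpr ⟨hLB hz2, h4⟩)
        · intro z hz w hw hzw
          have hz' := Finset.mem_filter.mp (Finset.mem_coe.mp hz)
          have hw' := Finset.mem_filter.mp (Finset.mem_coe.mp hw)
          have hz1 := (Finset.mem_filter.mp hz'.1).2.1
          have hw1 := (Finset.mem_filter.mp hw'.1).2.1
          have hzb : z.1 = b := hz'.2
          have hwb : w.1 = b := hw'.2
          have h3 : z.2.1 = w.2.1 := hzw
          rw [hzb, h3] at hz1
          rw [hwb] at hw1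
          have h4 : z.2.2 = w.2.2 := by
            have h5 : w.2.1 - z.2.2 = w.2.1 - w.2.2 := by rw [← hz1, ← hw1]
            exact sub_right_injective h5
          exact Prod.ext (hzb.trans hwb.symm) (Prod.ext h3 h4)
    rw [Finset.card_product] at hmain
    rw [pow_two]
    exact hmain

end Pool.Agent.OG
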