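import Pool.Agent.helper64.OT.SpecF

/-! Row SIZ of project OT (MP_f6e9a2_nt). -/

set_option autoImplicit false

namespace Pool.Agent.OT

open Finset Pool.Agent.SPI

theorem SIZ_triv {p : ℕ} (χ : MulChar (ZMod p) ℂ) [Fact p.Prime] (X B : Finset (ZMod p)) (β : ZMod p → ℂ)
    (hβ : ∀ b, ‖β b‖ ≤ 1) : ∑ x ∈ X, ‖FB χ B β x‖ ≤ (X.card : ℝ) * B.card := by
  have h1 : ∀ x ∈ X, ‖FB χ B β x‖ ≤ (B.card : ℝ) := by
    intro x _
    unfold FB
    refine (norm_sum_le _ _).trans ?_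
    have h2 : ∀ b ∈ B, ‖β b * χ (x + b)‖ ≤ 1 := by
      intro b _
      rw [norm_mul]
      have h3 : ‖χ (x + b)‖ ≤ 1 := DirichletCharacter.norm_le_one χ (x + b)
      calc ‖β b‖ * ‖χ (x + b)‖ ≤ 1 * 1 := mul_le_mul (hβ b) h3 (norm_nonneg _) zero_le_one
        _ = 1 := one_mul 1
    calc ∑ b ∈ B, ‖β b * χ (x + b)‖ ≤ ∑ b ∈ B, (1 : ℝ) := sum_le_sum h2
      _ = B.card := by rw [sum_const, nsmul_eq_mul, mul_one]
  calc ∑ x ∈ X, ‖FB χ B β x‖ ≤ ∑ x ∈ X, (B.card : ℝ) := sum_le_sum h1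
    _ = (X.card : ℝ) * B.card := by rw [sum_const, nsmul_eq_mul]

theorem SIZ (hKAR : KAR_stmt) : SIZ_stmt := by
  intro ε c₀ hε hc₀
  obtain ⟨e, he⟩ : ∃ e : ℝ, e = min ε c₀ / 2 := ⟨_, rfl⟩
  have he0 : 0 < e := by
    rw [he]
    have := lt_min hε hc₀
    linarith
  have heε : 2 * e ≤ ε := by
    rw [he]
    have := min_le_left ε c₀
    linarith
  have hec : 2 * e ≤ c₀ := by
    rw [he]
    have := min_le_right ε c₀
    linarith
  obtain ⟨c₁, p₀, hc₁, hK⟩ := hKAR e he0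
  refine ⟨min c₁ (e / 4), p₀, lt_min hc₁ (by linarith), ?_⟩
  intro p hpr hp χ X B hχ hX hor
  obtain ⟨c, hc⟩ : ∃ c : ℝ, c = min c₁ (e / 4) := ⟨_, rfl⟩
  have hcc₁ : c ≤ c₁ := by
    rw [hc]
    exact min_le_left _ _
  have hce : c ≤ e / 4 := by
    rw [hc]
    exact min_le_right _ _
  have hc0 : 0 < c := by
    rw [hc]
    exact lt_min hc₁ (by linarith)
  rw [← hc]
  have hP1 : (1 : ℝ) < p := Nat.one_lt_cast.2 hpr.out.one_lt
  have hP0 : (0 : ℝ) < p := by linarith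
  obtain ⟨x, hx⟩ : ∃ x : ℝ, x = (X.card : ℝ) := ⟨_, rfl⟩
  obtain ⟨b, hb⟩ : ∃ b : ℝ, b = (B.card : ℝ) := ⟨_, rfl⟩
  have hx0 : 0 ≤ x := by
    rw [hx]
    exact Nat.cast_nonneg _
  have hb0 : 0 ≤ b := by
    rw [hb]
    exact Nat.cast_nonneg _
  have htriv : ∀ β : ZMod p → ℂ, (∀ b, ‖β b‖ ≤ 1) → ∑ x ∈ X, ‖FB χ B β x‖ ≤ x * b := by
    intro β hβ
    rw [hx, hb]
    exact SIZ_triv χ X B β hβ
  have hKx : ∀ β : ZMod p → ℂ, (∀ b, ‖β b‖ ≤ 1) → (p : ℝ) ^ e ≤ x → (p : ℝ) ^ e ≤ b →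
      ((p : ℝ) ^ (1 / 2 + e) ≤ x ∨ (p : ℝ) ^ (1 / 2 + e) ≤ b) →
      ∑ x ∈ X, ‖FB χ B β x‖ ≤ (p : ℝ) ^ (-c₁) * (x * b) := by
    intro β hβ h1 h2 h3
    rw [hx] at h1 h3 ⊢
    rw [hb] at h2 h3 ⊢
    exact hK p hp χ X B β hχ hβ h1 h2 h3
  rw [← hx, ← hb]
  rw [← hx] at hX hor
  rw [← hb] at hor
  by_cases h1 : x * b < (p : ℝ) ^ (1 - 2 * c)
  · left
    intro β hβ
    refine (htriv β hβ).trans ?_
    have hxb : 0 ≤ x * b := mul_nonneg hx0 hb0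
    have hpc : 0 < (p : ℝ) ^ (-c) := Real.rpow_pos_of_pos hP0 _
    have h2 : (p : ℝ) ^ c * (x * b) ≤ Real.sqrt (p * (x * b)) := by
      apply Real.le_sqrt_of_sq_le
      have h3 : ((p : ℝ) ^ c * (x * b)) ^ 2 = (p : ℝ) ^ (2 * c) * (x * b) * (x * b) := by
        have h4 : (p : ℝ) ^ (2 * c) = (p : ℝ) ^ c * (p : ℝ) ^ c := by
          rw [← Real.rpow_add hP0]
          congr 1
          ring
        rw [h4]
        ring
      have h5 : (p : ℝ) ^ (2 * c) * (p : ℝ) ^ (1 - 2 * c) = p := by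
        rw [← Real.rpow_add hP0]
        have h6 : 2 * c + (1 - 2 * c) = 1 := by ring
        rw [h6, Real.rpow_one]
      rw [h3]
      refine mul_le_mul_of_nonneg_right ?_ hxb
      calc (p : ℝ) ^ (2 * c) * (x * b) ≤ (p : ℝ) ^ (2 * c) * (p : ℝ) ^ (1 - 2 * c) :=
            mul_le_mul_of_nonneg_left h1.le (Real.rpow_nonneg hP0.le _)
        _ = p := h5
    have h7 : (p : ℝ) ^ (-c) * (p : ℝ) ^ c = 1 := by
      rw [← Real.rpow_add hP0, neg_add_cancel, Real.rpow_zero]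
    calc x * b = (p : ℝ) ^ (-c) * ((p : ℝ) ^ c * (x * b)) := by rw [← mul_assoc, h7, one_mul]
      _ ≤ (p : ℝ) ^ (-c) * (Real.sqrt (p * (x * b)) + x * b) :=
          mul_le_mul_of_nonneg_left (by linarith) hpc.le
  · rw [not_lt] at h1
    have hmono : ∀ s t : ℝ, s ≤ t → (p : ℝ) ^ s ≤ (p : ℝ) ^ t := fun s t hst => Real.rpow_le_rpow_of_exponent_le hP1.le hst
    -- if `y ≤ p^s` and `y z ≥ p^(1-2c)` then `z ≥ p^(1-2c-s)`
    have hdiv : ∀ y z s : ℝ, 0 ≤ z → y ≤ (p : ℝ) ^ s → (p : ℝ) ^ (1 - 2 * c) ≤ y * z → (p : ℝ) ^ (1 - 2 * c - s) ≤ z := by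
      intro y z s hz hy hyz
      have h2 : (p : ℝ) ^ (1 - 2 * c) ≤ (p : ℝ) ^ s * z := hyz.trans (mul_le_mul_of_nonneg_right hy hz)
      have h3 : (p : ℝ) ^ (1 - 2 * c) = (p : ℝ) ^ s * (p : ℝ) ^ (1 - 2 * c - s) := by
        rw [← Real.rpow_add hP0]
        congr 1
        ring
      rw [h3] at h2
      exact le_of_mul_le_mul_left h2 (Real.rpow_pos_of_pos hP0 _)
    have hbe : (p : ℝ) ^ e ≤ b := by
      refine le_trans (hmono _ _ ?_) (hdiv x b (1 - ε) hb0 hX h1)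
      linarith
    have hxe : (p : ℝ) ^ e ≤ x := by
      rcases hor with h2 | h2
      · refine le_trans (hmono _ _ ?_) (hdiv b x (1 - ε) hx0 h2 (by rw [mul_comm b x]; exact h1))
        linarith
      · exact le_trans (hmono _ _ (by linarith)) h2
    by_cases h3 : (p : ℝ) ^ (1 / 2 + e) ≤ x ∨ (p : ℝ) ^ (1 / 2 + e) ≤ b
    · left
      intro β hβ
      refine (hKx β hβ hxe hbe h3).trans ?_
      have h4 : (p : ℝ) ^ (-c₁) ≤ (p : ℝ) ^ (-c) := hmono _ _ (by linarith)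
      have h5 : 0 ≤ Real.sqrt (p * (x * b)) := Real.sqrt_nonneg _
      have h6 : 0 ≤ x * b := mul_nonneg hx0 hb0
      calc (p : ℝ) ^ (-c₁) * (x * b) ≤ (p : ℝ) ^ (-c) * (x * b) := mul_le_mul_of_nonneg_right h4 h6
        _ ≤ (p : ℝ) ^ (-c) * (Real.sqrt (p * (x * b)) + x * b) :=
            mul_le_mul_of_nonneg_left (by linarith) (Real.rpow_nonneg hP0.le _)
    · right
      rw [not_or, not_le, not_le] at h3
      have hxu : x ≤ (p : ℝ) ^ (1 / 2 + e) := h3.1.le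
      have hbu : b ≤ (p : ℝ) ^ (1 / 2 + e) := h3.2.le
      refine ⟨?_, ?_, ?_, ?_⟩
      · refine le_trans (hmono _ _ ?_) (hdiv b x (1 / 2 + e) hx0 hbu (by rw [mul_comm b x]; exact h1))
        linarith
      · exact hxu.trans (hmono _ _ (by linarith))
      · refine le_trans (hmono _ _ ?_) (hdiv x b (1 / 2 + e) hb0 hxu h1)
        linarith
      · exact hbu.trans (hmono _ _ (by linarith))

end Pool.Agent.OT
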