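import Pool.Agent.helper64.OT.SpecD

/-! Row TAY of project OT (MP_f6e9a2_nt). -/

set_option autoImplicit false

namespace Pool.Agent.OT

open Finset Pool.Agent.SPI

theorem TAY_cs (s : Finset ℕ) (a g : ℕ → ℝ) (ha : ∀ k, 0 ≤ a k) :
    (∑ k ∈ s, a k * g k) ^ 2 ≤ (∑ k ∈ s, a k) * ∑ k ∈ s, a k * g k ^ 2 := by
  have h := sum_mul_sq_le_sq_mul_sq s (fun k => Real.sqrt (a k)) (fun k => Real.sqrt (a k) * g k)
  have e1 : ∀ k ∈ s, Real.sqrt (a k) * (Real.sqrt (a k) * g k) = a k * g k := by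
    intro k _
    rw [← mul_assoc, Real.mul_self_sqrt (ha k)]
  have e2 : ∀ k ∈ s, Real.sqrt (a k) ^ 2 = a k := fun k _ => Real.sq_sqrt (ha k)
  have e3 : ∀ k ∈ s, (Real.sqrt (a k) * g k) ^ 2 = a k * g k ^ 2 := by
    intro k _
    rw [mul_pow, Real.sq_sqrt (ha k)]
  rw [sum_congr rfl e1, sum_congr rfl e2, sum_congr rfl e3] at h
  exact h

theorem TAY : TAY_stmt := by
  intro p hne c G H M hc hH hM hG
  have he : ∀ K : ℕ, ∑ k ∈ range K, 1 / (k.factorial : ℝ) ≤ Real.exp 1 := by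
    intro K
    have h1 := Real.sum_le_exp_of_nonneg (x := 1) zero_le_one K
    simpa using h1
  have hfin : ∀ K : ℕ, ∑ t : ZMod p, ‖∑ k ∈ range K, c k * G k t‖ ^ 2 ≤ 8 * M := by
    intro K
    have h0 : ∀ k : ℕ, (0 : ℝ) ≤ 1 / (k.factorial : ℝ) := fun k => by positivity
    have h1 : ∀ t : ZMod p, ‖∑ k ∈ range K, c k * G k t‖ ^ 2 ≤
        (∑ k ∈ range K, 1 / (k.factorial : ℝ)) * ∑ k ∈ range K, 1 / (k.factorial : ℝ) * ‖G k t‖ ^ 2 := by
      intro t
      have h2 : ‖∑ k ∈ range K, c k * G k t‖ ≤ ∑ k ∈ range K, 1 / (k.factorial : ℝ) * ‖G k t‖ := by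
        refine (norm_sum_le _ _).trans (sum_le_sum fun k _ => ?_)
        rw [norm_mul]
        exact mul_le_mul_of_nonneg_right (hc k) (norm_nonneg _)
      exact (pow_le_pow_left₀ (norm_nonneg _) h2 2).trans (TAY_cs _ _ _ h0)
    have hS0 : 0 ≤ ∑ k ∈ range K, 1 / (k.factorial : ℝ) := sum_nonneg fun k _ => h0 k
    calc ∑ t : ZMod p, ‖∑ k ∈ range K, c k * G k t‖ ^ 2
        ≤ ∑ t : ZMod p, (∑ k ∈ range K, 1 / (k.factorial : ℝ)) * ∑ k ∈ range K, 1 / (k.factorial : ℝ) * ‖G k t‖ ^ 2 :=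
          sum_le_sum fun t _ => h1 t
      _ = (∑ k ∈ range K, 1 / (k.factorial : ℝ)) * ∑ k ∈ range K, 1 / (k.factorial : ℝ) * ∑ t : ZMod p, ‖G k t‖ ^ 2 := by
          rw [← mul_sum, sum_comm]
          congr 1
          exact sum_congr rfl fun k _ => (mul_sum _ _ _).symm
      _ ≤ (∑ k ∈ range K, 1 / (k.factorial : ℝ)) * ∑ k ∈ range K, 1 / (k.factorial : ℝ) * M :=
          mul_le_mul_of_nonneg_left (sum_le_sum fun k _ => mul_le_mul_of_nonneg_left (hG k) (h0 k)) hS0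
      _ = (∑ k ∈ range K, 1 / (k.factorial : ℝ)) * (∑ k ∈ range K, 1 / (k.factorial : ℝ)) * M := by
          rw [← sum_mul]
          ring
      _ ≤ 8 * M := by
          refine mul_le_mul_of_nonneg_right ?_ hM
          have h3 := he K
          have h4 := Real.exp_one_lt_d9
          have h5 : ∑ k ∈ range K, 1 / (k.factorial : ℝ) ≤ 2.75 := by linarith
          nlinarith
  have hlim : Filter.Tendsto (fun K : ℕ => ∑ t : ZMod p, ‖∑ k ∈ range K, c k * G k t‖ ^ 2) Filter.atTop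
      (nhds (∑ t : ZMod p, ‖H t‖ ^ 2)) := by
    refine tendsto_finset_sum _ fun t _ => ?_
    exact ((hH t).tendsto_sum_nat.norm).pow 2
  exact le_of_tendsto' hlim hfin

end Pool.Agent.OT
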